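import Mathlib

/-!
# Discrete Riesz Bernstein-Markov measures

Every compact subset `K` of `ℝ^d` of positive Riesz `α`-capacity carries a finite discrete measure
with the Riesz Bernstein-Markov property.

Proof. A measure of finite energy gives a measure of bounded potential. So for points
`x_2, …, x_n` of `K` there is `y ∈ K` with `∑ |y - x_j| ^ (-α) ≤ c n`, hence at a point `y` where
`f` is large no `x_j` is closer to `y` than a negative power of `n`. The exponent changes by `o(n)`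
on a ball about `y` whose radius is a negative power of `n`, and `K` has a net of this mesh with
polynomially many points. The measure is a sum of multiples of the counting measures of the nets.
-/

set_option autoImplicit false

open MeasureTheory Filter Topology Set
open scoped ENNReal

namespace Pool.Agent.Results.MP_a7495c_an.DiscreteRBM

/-- `ℝ^d` with the Euclidean norm. -/
abbrev Eu (d : ℕ) : Type := EuclideanSpace ℝ (Fin d)

/-- The Riesz energy `∬ |x - y| ^ (-α) dν(x) dν(y)` (with the value `∞` of the kernel on the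
diagonal). -/
noncomputable def energy {d : ℕ} (α : ℝ) (ν : Measure (Eu d)) : ℝ≥0∞ :=
  ∫⁻ x, ∫⁻ y, (ENNReal.ofReal ‖x - y‖ ^ α)⁻¹ ∂ν ∂ν

/-- `K` has positive Riesz `α`-capacity: it carries a Borel probability measure of finite
energy. -/
def PositiveCapacity {d : ℕ} (α : ℝ) (K : Set (Eu d)) : Prop :=
  ∃ ν : Measure (Eu d), IsProbabilityMeasure ν ∧ ν Kᶜ = 0 ∧ energy α ν < ∞

/-- The function `f(y) = exp (-∑ |y - x_j| ^ (-α))`, with value `0` at the points `x_j`. -/
noncomputable def pf {d m : ℕ} (α : ℝ) (x : Fin m → Eu d) (y : Eu d) : ℝ :=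
  open Classical in if ∃ j, x j = y then 0 else Real.exp (-∑ j, ‖y - x j‖ ^ (-α))

/-- The (unweighted) Riesz Bernstein-Markov property of a measure `μ` on `K`. The points of a
function in `𝒫_n(K)` are `x_2, …, x_n`, a family of `n - 1` points of `K`. -/
def RieszBernsteinMarkov {d : ℕ} (α : ℝ) (K : Set (Eu d)) (μ : Measure (Eu d)) : Prop :=
  ∃ M : ℕ → ℝ, (∀ n, 0 < M n) ∧ Tendsto (fun n : ℕ => M n ^ (1 / (n : ℝ))) atTop (𝓝 1) ∧
    ∀ n : ℕ, 2 ≤ n → ∀ x : Fin (n - 1) → Eu d, (∀ j, x j ∈ K) →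
      ∀ y ∈ K, pf α x y ≤ M n * ∫ z, pf α x z ∂μ

/-- `μ` is discrete on `K`: `μ = ∑ c_k δ_{z_k}` for countably many points `z_k` of `K` and weights
`c_k > 0`. -/
def DiscreteOn {d : ℕ} (K : Set (Eu d)) (μ : Measure (Eu d)) : Prop :=
  ∃ (ι : Type) (_ : Countable ι) (z : ι → Eu d) (c : ι → ℝ≥0∞),
    (∀ i, z i ∈ K) ∧ (∀ i, 0 < c i) ∧ μ = Measure.sum fun i => c i • Measure.dirac (z i)

variable {d : ℕ} {α : ℝ}

theorem kern_measurable (α : ℝ) :
    Measurable fun q : Eu d × Eu d => (ENNReal.ofReal ‖q.1 - q.2‖ ^ α)⁻¹ := by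
  fun_prop

/-- A compact set with a nonzero measure of bounded potential. -/
theorem bounded_potential {K : Set (Eu d)} (hα : 0 < α) (hK : IsCompact K)
    (hcap : PositiveCapacity α K) :
    ∃ (ν : Measure (Eu d)) (C : ℝ≥0∞), IsFiniteMeasure ν ∧ ν ≠ 0 ∧ ν Kᶜ = 0 ∧ C ≠ ∞ ∧
      ∀ x : Eu d, ∫⁻ y, (ENNReal.ofReal ‖x - y‖ ^ α)⁻¹ ∂ν ≤ C := by
  obtain ⟨ν, hν, hνK, hE⟩ := hcap
  set U : Eu d → ℝ≥0∞ := fun x => ∫⁻ y, (ENNReal.ofReal ‖x - y‖ ^ α)⁻¹ ∂ν with hU
  have hUm : Measurable U := (kern_measurable α).lintegral_prod_right'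
  have hUfin : ∀ᵐ x ∂ν, U x < ∞ := ae_lt_top hUm hE.ne
  obtain ⟨N, hN⟩ : ∃ N : ℕ, 0 < ν (K ∩ {x | U x ≤ N}) := by
    by_contra h
    push Not at h
    have h0 : ν (⋃ N : ℕ, K ∩ {x | U x ≤ N}) = 0 := by
      rw [measure_iUnion_null_iff]
      exact fun N => nonpos_iff_eq_zero.1 (h N)
    have h1 : ∀ᵐ x ∂ν, x ∈ K := by
      rw [ae_iff]; exact hνK
    have h2 : ∀ᵐ x ∂ν, x ∈ ⋃ N : ℕ, K ∩ {x | U x ≤ N} := by
      filter_upwards [hUfin, h1] with x hx hxK
      obtain ⟨N, hN⟩ := ENNReal.exists_nat_gt hx.ne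
      exact mem_iUnion.2 ⟨N, hxK, hN.le⟩
    have h3 : ν (⋃ N : ℕ, K ∩ {x | U x ≤ N})ᶜ = 0 := by
      rw [ae_iff] at h2; exact h2
    have h4 : ν univ = 0 := by
      rw [← union_compl_self (⋃ N : ℕ, K ∩ {x | U x ≤ N})]
      exact measure_union_null h0 h3
    rw [measure_univ] at h4
    exact one_ne_zero h4
  have hmeas : MeasurableSet (K ∩ {x | U x ≤ N}) :=
    hK.measurableSet.inter (measurableSet_le hUm measurable_const)
  obtain ⟨E, hEsub, hEc, hE0⟩ := hmeas.exists_lt_isCompact hN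
  have hEne : E.Nonempty := nonempty_of_measure_ne_zero hE0.ne'
  refine ⟨ν.restrict E, 2 ^ α * N, inferInstance, ?_, ?_, ?_, ?_⟩
  · intro h
    rw [Measure.restrict_eq_zero] at h
    exact hE0.ne' h
  · exact nonpos_iff_eq_zero.1 ((Measure.restrict_apply_le _ _).trans hνK.le)
  · exact ENNReal.mul_ne_top (ENNReal.rpow_ne_top_of_nonneg hα.le (by simp)) (by simp)
  · intro x
    obtain ⟨x', hx'E, hx'⟩ := hEc.exists_infDist_eq_dist hEne x
    have h1 : ∀ y ∈ E, (ENNReal.ofReal ‖x - y‖ ^ α)⁻¹ ≤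
        2 ^ α * (ENNReal.ofReal ‖x' - y‖ ^ α)⁻¹ := by
      intro y hy
      have h2 : ‖x' - y‖ ≤ 2 * ‖x - y‖ := by
        have h3 := Metric.infDist_le_dist_of_mem hy (x := x)
        rw [hx'] at h3
        have h4 := dist_triangle x' x y
        rw [dist_comm x' x] at h4
        rw [← dist_eq_norm, ← dist_eq_norm]
        linarith
      have h5 : ENNReal.ofReal ‖x' - y‖ ^ α ≤ 2 ^ α * ENNReal.ofReal ‖x - y‖ ^ α := by
        rw [← ENNReal.mul_rpow_of_nonneg _ _ hα.le]
        apply ENNReal.rpow_le_rpow _ hα.le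
        calc ENNReal.ofReal ‖x' - y‖ ≤ ENNReal.ofReal (2 * ‖x - y‖) := ENNReal.ofReal_le_ofReal h2
          _ = 2 * ENNReal.ofReal ‖x - y‖ := by
            rw [ENNReal.ofReal_mul (by norm_num)]; simp
      have h6 : (2 : ℝ≥0∞) ^ α ≠ 0 := (ENNReal.rpow_pos (by norm_num) (by simp)).ne'
      have h7 : (2 : ℝ≥0∞) ^ α ≠ ∞ := ENNReal.rpow_ne_top_of_nonneg hα.le (by simp)
      calc (ENNReal.ofReal ‖x - y‖ ^ α)⁻¹ = 2 ^ α * (2 ^ α * ENNReal.ofReal ‖x - y‖ ^ α)⁻¹ := by
            rw [ENNReal.mul_inv (Or.inl h6) (Or.inl h7), ← mul_assoc,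
              ENNReal.mul_inv_cancel h6 h7, one_mul]
        _ ≤ 2 ^ α * (ENNReal.ofReal ‖x' - y‖ ^ α)⁻¹ :=
            mul_le_mul' le_rfl (ENNReal.inv_le_inv' h5)
    have h8 : ∫⁻ y in E, (ENNReal.ofReal ‖x' - y‖ ^ α)⁻¹ ∂ν ≤ U x' :=
      setLIntegral_le_lintegral _ _
    have h9 : U x' ≤ N := (hEsub hx'E).2
    have hm : Measurable fun y : Eu d => (ENNReal.ofReal ‖x' - y‖ ^ α)⁻¹ := by fun_prop
    calc ∫⁻ y in E, (ENNReal.ofReal ‖x - y‖ ^ α)⁻¹ ∂ν
        ≤ ∫⁻ y in E, 2 ^ α * (ENNReal.ofReal ‖x' - y‖ ^ α)⁻¹ ∂ν :=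
          setLIntegral_mono' hEc.measurableSet h1
      _ = 2 ^ α * ∫⁻ y in E, (ENNReal.ofReal ‖x' - y‖ ^ α)⁻¹ ∂ν :=
          lintegral_const_mul _ hm
      _ ≤ 2 ^ α * N := mul_le_mul' le_rfl (h8.trans h9)

theorem exists_good_point {K : Set (Eu d)} (hα : 0 < α) (hK : IsCompact K)
    (hcap : PositiveCapacity α K) :
    ∃ c : ℕ, 1 ≤ c ∧ ∀ (m : ℕ) (x : Fin m → Eu d), ∃ y ∈ K, (∀ j, x j ≠ y) ∧
      ∑ j, ‖y - x j‖ ^ (-α) ≤ c * m := by
  obtain ⟨ν, C, hν, hν0, hνK, hC, hpot⟩ := bounded_potential hα hK hcap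
  have hν1 : ν univ ≠ 0 := by
    rwa [Ne, Measure.measure_univ_eq_zero]
  have hCν : C / ν univ ≠ ∞ := ENNReal.div_ne_top hC hν1
  obtain ⟨c, hc⟩ := ENNReal.exists_nat_gt hCν
  have hc1 : 1 ≤ c := by
    rcases Nat.eq_zero_or_pos c with h | h
    · subst h; simp at hc
    · exact h
  refine ⟨c, hc1, fun m x => ?_⟩
  have hmeas : ∀ j, Measurable fun y => (ENNReal.ofReal ‖x j - y‖ ^ α)⁻¹ := fun j => by fun_prop
  obtain ⟨y, hyK, hy⟩ := exists_notMem_null_le_laverage hν0
    (f := fun y => ∑ j, (ENNReal.ofReal ‖x j - y‖ ^ α)⁻¹)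
    (Finset.measurable_sum _ fun j _ => hmeas j).aemeasurable hνK
  rw [laverage_eq, lintegral_finsetSum _ fun j _ => hmeas j] at hy
  have h1 : ∑ j, (ENNReal.ofReal ‖x j - y‖ ^ α)⁻¹ ≤ c * m := by
    refine hy.trans ?_
    calc (∑ j, ∫⁻ a, (ENNReal.ofReal ‖x j - a‖ ^ α)⁻¹ ∂ν) / ν univ
        ≤ (∑ _j : Fin m, C) / ν univ := by
          gcongr with j _
          exact hpot (x j)
      _ = m * (C / ν univ) := by
          rw [Finset.sum_const, Finset.card_univ, Fintype.card_fin, nsmul_eq_mul, mul_div_assoc]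
      _ ≤ m * c := by gcongr
      _ = c * m := mul_comm _ _
  have h2 : (c * m : ℝ≥0∞) ≠ ∞ := by exact_mod_cast ENNReal.natCast_ne_top (c * m)
  have hne : ∀ j, x j ≠ y := by
    intro j hj
    have h3 : (ENNReal.ofReal ‖x j - y‖ ^ α)⁻¹ ≤ ∑ j, (ENNReal.ofReal ‖x j - y‖ ^ α)⁻¹ :=
      Finset.single_le_sum (f := fun j => (ENNReal.ofReal ‖x j - y‖ ^ α)⁻¹)
        (fun _ _ => zero_le) (Finset.mem_univ j)
    rw [hj, sub_self, norm_zero, ENNReal.ofReal_zero, ENNReal.zero_rpow_of_pos hα,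
      ENNReal.inv_zero, top_le_iff] at h3
    rw [h3, top_le_iff] at h1
    exact h2 h1
  refine ⟨y, by simpa using hyK, hne, ?_⟩
  have h4 : ∀ j, (ENNReal.ofReal ‖x j - y‖ ^ α)⁻¹ = ENNReal.ofReal (‖y - x j‖ ^ (-α)) := by
    intro j
    have hpos : 0 < ‖x j - y‖ := norm_pos_iff.2 (sub_ne_zero.2 (hne j))
    rw [norm_sub_rev y, Real.rpow_neg hpos.le, ENNReal.ofReal_inv_of_pos (by positivity),
      ENNReal.ofReal_rpow_of_pos hpos]
  simp only [h4] at h1
  rw [← ENNReal.ofReal_sum_of_nonneg (fun j _ => by positivity)] at h1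
  have h5 : (c * m : ℝ≥0∞) = ENNReal.ofReal ((c : ℝ) * m) := by
    rw [ENNReal.ofReal_mul (by positivity)]; simp
  rw [h5, ENNReal.ofReal_le_ofReal_iff (by positivity)] at h1
  exact h1

/-- Finite nets of compact sets, with a bound for the number of points. -/
theorem exists_net {K : Set (Eu d)} (hK : IsCompact K) :
    ∃ R : ℕ, ∀ q : ℕ, 1 ≤ q → ∃ S : Finset (Eu d), (∀ s ∈ S, s ∈ K) ∧
      S.card ≤ (2 * (R * q * (d + 1)) + 1) ^ d ∧ ∀ x ∈ K, ∃ s ∈ S, ‖x - s‖ ≤ 1 / (q : ℝ) := by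
  classical
  obtain ⟨R₀, hR₀⟩ := hK.isBounded.exists_norm_le
  obtain ⟨R, hR⟩ := exists_nat_ge R₀
  refine ⟨R, fun q hq => ?_⟩
  set H : ℝ := q * (d + 1) with hH
  have hH0 : 0 < H := by positivity
  let code : Eu d → Fin d → ℤ := fun x i => ⌊x i * H⌋
  set B : ℕ := R * q * (d + 1) with hB
  let T : Finset (Fin d → ℤ) := Fintype.piFinset fun _ => Finset.Icc (-(B : ℤ)) B
  have hTcard : T.card = (2 * B + 1) ^ d := by
    simp only [T, Fintype.card_piFinset, Int.card_Icc, Finset.prod_const, Finset.card_univ,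
      Fintype.card_fin]
    congr 1
    omega
  have hcode : ∀ x ∈ K, code x ∈ T := by
    intro x hx
    simp only [T, Fintype.mem_piFinset, Finset.mem_Icc]
    intro i
    have h1 : |x i| ≤ R := (PiLp.norm_apply_le x i).trans ((hR₀ x hx).trans hR)
    have h2 : |x i * H| ≤ B := by
      rw [abs_mul, abs_of_pos hH0, hB, hH]
      push_cast
      calc |x i| * (q * (d + 1)) ≤ R * (q * (d + 1)) := by gcongr
        _ = R * q * (d + 1) := by ring
    rw [abs_le] at h2
    constructor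
    · exact Int.le_floor.2 (by push_cast; linarith [h2.1])
    · have h3 : ((⌊x i * H⌋ : ℤ) : ℝ) ≤ (B : ℤ) := (Int.floor_le _).trans (by exact_mod_cast h2.2)
      exact_mod_cast h3
  let T' : Finset (Fin d → ℤ) := T.filter fun v => ∃ x ∈ K, code x = v
  have hT' : ∀ v ∈ T', ∃ x ∈ K, code x = v := fun v hv => (Finset.mem_filter.1 hv).2
  choose! g hgK hgc using hT'
  refine ⟨T'.image g, ?_, ?_, ?_⟩
  · intro s hs
    obtain ⟨v, hv, rfl⟩ := Finset.mem_image.1 hs
    exact hgK v hv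
  · calc (T'.image g).card ≤ T'.card := Finset.card_image_le
      _ ≤ T.card := Finset.card_filter_le _ _
      _ = (2 * B + 1) ^ d := hTcard
  · intro x hx
    have hv : code x ∈ T' := Finset.mem_filter.2 ⟨hcode x hx, x, hx, rfl⟩
    refine ⟨g (code x), Finset.mem_image_of_mem g hv, ?_⟩
    have h1 : ∀ i, |x i - g (code x) i| ≤ 1 / H := by
      intro i
      have h2 : ⌊x i * H⌋ = ⌊g (code x) i * H⌋ := by
        have := congrFun (hgc _ hv) i
        exact this.symm
      have h3 := Int.abs_sub_lt_one_of_floor_eq_floor h2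
      rw [← sub_mul, abs_mul, abs_of_pos hH0] at h3
      rw [le_div_iff₀ hH0]
      exact h3.le
    rw [EuclideanSpace.norm_eq]
    have h4 : ∑ i, ‖(x - g (code x)) i‖ ^ 2 ≤ (1 / (q : ℝ)) ^ 2 := by
      calc ∑ i, ‖(x - g (code x)) i‖ ^ 2 ≤ ∑ _i : Fin d, (1 / H) ^ 2 := by
            apply Finset.sum_le_sum
            intro i _
            rw [PiLp.sub_apply, Real.norm_eq_abs]
            gcongr
            exact h1 i
        _ = d * (1 / H) ^ 2 := by simp
        _ ≤ (d + 1) ^ 2 * (1 / H) ^ 2 := by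
            gcongr
            nlinarith
        _ = (1 / (q : ℝ)) ^ 2 := by
            rw [hH]
            have : (q : ℝ) ≠ 0 := by positivity
            field_simp
    calc √(∑ i, ‖(x - g (code x)) i‖ ^ 2) ≤ √((1 / (q : ℝ)) ^ 2) := Real.sqrt_le_sqrt h4
      _ = 1 / q := Real.sqrt_sq (by positivity)

/-- The change of the exponent on a small ball. -/
theorem exponent_change (hα : 0 < α) {c k m : ℕ} (hc : 1 ≤ c) (hm : 1 ≤ m) (hk : 1 / α ≤ k)
    (x : Fin m → Eu d) {y z : Eu d} (hy : ∀ j, x j ≠ y)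
    (hsum : ∑ j, ‖y - x j‖ ^ (-α) ≤ c * m) (hz : ‖y - z‖ ≤ 1 / (((c * m) ^ k * (m + 1) : ℕ) : ℝ)) :
    (∀ j, x j ≠ z) ∧ ∑ j, ‖z - x j‖ ^ (-α) ≤
      ∑ j, ‖y - x j‖ ^ (-α) + c * m * ((1 + 1 / (m : ℝ)) ^ α - 1) := by
  have hm0 : (0 : ℝ) < m := by exact_mod_cast hm
  have hcm : (1 : ℝ) ≤ c * m := by exact_mod_cast Nat.one_le_iff_ne_zero.2 (by positivity)
  have hpos : ∀ j, 0 < ‖y - x j‖ := fun j => norm_pos_iff.2 (sub_ne_zero.2 (hy j).symm)
  have hr : ∀ j, 1 / ((c : ℝ) * m) ^ k ≤ ‖y - x j‖ := by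
    intro j
    by_contra h
    push Not at h
    have h1 : ‖y - x j‖ ^ (-α) ≤ c * m :=
      (Finset.single_le_sum (f := fun j => ‖y - x j‖ ^ (-α)) (fun j _ => by positivity)
        (Finset.mem_univ j)).trans hsum
    have h2 : (1 / ((c : ℝ) * m) ^ k) ^ (-α) < ‖y - x j‖ ^ (-α) :=
      Real.rpow_lt_rpow_of_neg (hpos j) h (by linarith)
    have h3 : (c : ℝ) * m ≤ (1 / ((c : ℝ) * m) ^ k) ^ (-α) := by
      rw [one_div, Real.inv_rpow (by positivity), Real.rpow_neg (by positivity), inv_inv,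
        ← Real.rpow_natCast, ← Real.rpow_mul (by positivity)]
      have h4 : (1 : ℝ) ≤ k * α := by
        rw [div_le_iff₀ hα] at hk
        exact hk
      calc (c : ℝ) * m = ((c : ℝ) * m) ^ (1 : ℝ) := (Real.rpow_one _).symm
        _ ≤ ((c : ℝ) * m) ^ ((k : ℝ) * α) := Real.rpow_le_rpow_of_exponent_le hcm h4
    linarith
  have hzr : ∀ j, ‖y - x j‖ / (1 + 1 / (m : ℝ)) ≤ ‖z - x j‖ := by
    intro j
    have h1 : ‖y - z‖ ≤ ‖y - x j‖ / (m + 1) := by
      refine hz.trans ?_
      push_cast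
      rw [div_le_div_iff₀ (by positivity) (by positivity)]
      have h2 := hr j
      rw [div_le_iff₀ (by positivity)] at h2
      nlinarith
    have h3 : ‖y - x j‖ ≤ ‖y - z‖ + ‖z - x j‖ := by
      have := norm_add_le (y - z) (z - x j)
      rwa [sub_add_sub_cancel] at this
    have h4 : ‖y - x j‖ / (1 + 1 / (m : ℝ)) = ‖y - x j‖ - ‖y - x j‖ / (m + 1) := by
      field_simp
      ring
    linarith
  have hzpos : ∀ j, 0 < ‖z - x j‖ := fun j => lt_of_lt_of_le (by have := hpos j; positivity) (hzr j)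
  refine ⟨fun j h => ?_, ?_⟩
  · have := hzpos j
    rw [h, sub_self, norm_zero] at this
    exact lt_irrefl _ this
  · set A : ℝ := (1 + 1 / (m : ℝ)) ^ α with hA
    have hA1 : 1 ≤ A := by
      apply Real.one_le_rpow _ hα.le
      have : 0 < 1 / (m : ℝ) := by positivity
      linarith
    have h1 : ∀ j, ‖z - x j‖ ^ (-α) ≤ A * ‖y - x j‖ ^ (-α) := by
      intro j
      have h2 : ‖z - x j‖ ^ (-α) ≤ (‖y - x j‖ / (1 + 1 / (m : ℝ))) ^ (-α) :=
        Real.rpow_le_rpow_of_nonpos (by have := hpos j; positivity) (hzr j) (by linarith)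
      refine h2.trans (le_of_eq ?_)
      rw [Real.div_rpow (hpos j).le (by positivity), Real.rpow_neg (x := 1 + 1 / (m : ℝ))
        (by positivity), div_inv_eq_mul, mul_comm]
    calc ∑ j, ‖z - x j‖ ^ (-α) ≤ ∑ j, A * ‖y - x j‖ ^ (-α) := Finset.sum_le_sum fun j _ => h1 j
      _ = ∑ j, ‖y - x j‖ ^ (-α) + (A - 1) * ∑ j, ‖y - x j‖ ^ (-α) := by
          rw [← Finset.mul_sum]; ring
      _ ≤ ∑ j, ‖y - x j‖ ^ (-α) + (A - 1) * (c * m) := by
          gcongr
      _ = _ := by ring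

theorem pf_nonneg {m : ℕ} (x : Fin m → Eu d) (y : Eu d) : 0 ≤ pf α x y := by
  unfold pf
  split_ifs
  · exact le_rfl
  · positivity

theorem pf_le_one {m : ℕ} (x : Fin m → Eu d) (y : Eu d) : pf α x y ≤ 1 := by
  unfold pf
  split_ifs
  · exact zero_le_one
  · apply Real.exp_le_one_iff.2
    rw [Left.neg_nonpos_iff]
    exact Finset.sum_nonneg fun j _ => by positivity

theorem pf_measurable {m : ℕ} (x : Fin m → Eu d) : Measurable (pf α x) := by
  unfold pf
  refine Measurable.ite ?_ measurable_const ?_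
  · have : {a : Eu d | ∃ j, x j = a} = Set.range x := rfl
    rw [this]
    exact (Set.finite_range x).measurableSet
  · refine (Real.measurable_exp.comp (Measurable.neg ?_))
    refine Finset.measurable_sum _ fun j _ => ?_
    exact ((measurable_id.sub_const _).norm).pow_const _

/-- The integral is at least the contribution of an atom. -/
theorem atom_le {m : ℕ} (x : Fin m → Eu d) (μ : Measure (Eu d)) [IsFiniteMeasure μ] {z : Eu d}
    {w : ℝ} (_hw : 0 ≤ w) (hz : ENNReal.ofReal w ≤ μ {z}) : w * pf α x z ≤ ∫ a, pf α x a ∂μ := by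
  have hint : Integrable (pf α x) μ := by
    refine Integrable.of_bound (pf_measurable x).aestronglyMeasurable 1 (ae_of_all _ fun a => ?_)
    rw [Real.norm_eq_abs, abs_of_nonneg (pf_nonneg x a)]
    exact pf_le_one x a
  have h1 : ∫ a in {z}, pf α x a ∂μ ≤ ∫ a, pf α x a ∂μ :=
    setIntegral_le_integral hint (ae_of_all _ fun a => pf_nonneg x a)
  rw [integral_singleton, smul_eq_mul] at h1
  refine le_trans ?_ h1
  apply mul_le_mul_of_nonneg_right _ (pf_nonneg x z)
  rw [Measure.real]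
  exact (ENNReal.ofReal_le_iff_le_toReal (measure_ne_top μ _)).1 hz

/-- The bound for the constants. -/
theorem tendsto_bound (α a b e : ℝ) :
    Tendsto (fun n : ℕ => a * ((1 + 1 / ((n - 1 : ℕ) : ℝ)) ^ α - 1) + b / n +
      e * (Real.log n / n)) atTop (𝓝 0) := by
  have h1 : Tendsto (fun n : ℕ => 1 / ((n - 1 : ℕ) : ℝ)) atTop (𝓝 0) :=
    tendsto_one_div_atTop_nhds_zero_nat.comp (tendsto_sub_atTop_nat 1)
  have h2 : Tendsto (fun n : ℕ => (1 + 1 / ((n - 1 : ℕ) : ℝ)) ^ α) atTop (𝓝 ((1 + 0) ^ α)) :=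
    (h1.const_add 1).rpow_const (Or.inl (by norm_num))
  rw [add_zero, Real.one_rpow] at h2
  have h3 : Tendsto (fun n : ℕ => Real.log n / n) atTop (𝓝 0) := by
    have := (Real.tendsto_pow_log_div_mul_add_atTop 1 0 1 one_ne_zero).comp
      (tendsto_natCast_atTop_atTop (R := ℝ))
    simpa [Function.comp_def] using this
  have h4 := (((h2.sub_const 1).const_mul a).add (tendsto_const_div_atTop_nhds_zero_nat b)).add
    (h3.const_mul e)
  simpa using h4

/-- **Q1 and Q2 for compact sets of positive capacity.** Every compact set `K` in `ℝ^d` of positive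
Riesz `α`-capacity carries a finite discrete measure with the Riesz Bernstein-Markov property. -/
theorem result {d : ℕ} {α : ℝ} (hα : 0 < α) (K : Set (EuclideanSpace ℝ (Fin d)))
    (hK : IsCompact K) (hcap : PositiveCapacity α K) :
    ∃ μ : Measure (EuclideanSpace ℝ (Fin d)), IsFiniteMeasure μ ∧ μ Kᶜ = 0 ∧ DiscreteOn K μ ∧
      RieszBernsteinMarkov α K μ := by
  classical
  obtain ⟨c, hc, hgood⟩ := exists_good_point hα hK hcap
  obtain ⟨k, hk⟩ := exists_nat_ge (1 / α)
  obtain ⟨R, hnet⟩ := exists_net hK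
  -- the mesh is `1 / q m`
  set q : ℕ → ℕ := fun m => (c * m) ^ k * (m + 1) with hq
  have hq1 : ∀ m, 1 ≤ m → 1 ≤ q m := fun m hm =>
    Nat.one_le_iff_ne_zero.2 (by have := hc; simp only [hq]; positivity)
  have hnet' : ∀ m : ℕ, ∃ S : Finset (Eu d), (∀ s ∈ S, s ∈ K) ∧
      S.card ≤ (2 * (R * q m * (d + 1)) + 1) ^ d ∧
      (1 ≤ m → ∀ x ∈ K, ∃ s ∈ S, ‖x - s‖ ≤ 1 / (q m : ℝ)) := by
    intro m
    by_cases hm : 1 ≤ m
    · obtain ⟨S, h1, h2, h3⟩ := hnet (q m) (hq1 m hm)
      exact ⟨S, h1, h2, fun _ => h3⟩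
    · exact ⟨∅, by simp, by simp, fun h => absurd h hm⟩
  choose S hSK hScard hSnet using hnet'
  set N : ℕ → ℕ := fun m => (2 * (R * q m * (d + 1)) + 1) ^ d with hN
  have hN0 : ∀ m, 0 < N m := fun m => by positivity
  set w : ℕ → ℝ := fun m => 1 / (((m : ℝ) + 1) ^ 2 * N m) with hw
  have hw0 : ∀ m, 0 < w m := fun m => by have := hN0 m; positivity
  set μ : Measure (Eu d) := Measure.sum fun i : (m : ℕ) × {s // s ∈ S m} =>
    ENNReal.ofReal (w i.1) • Measure.dirac (i.2 : Eu d) with hμ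
  have hfin : IsFiniteMeasure μ := by
    refine ⟨?_⟩
    rw [hμ, Measure.sum_apply _ MeasurableSet.univ]
    simp only [Measure.smul_apply, measure_univ, smul_eq_mul, mul_one]
    rw [ENNReal.tsum_sigma (f := fun m (_ : {s // s ∈ S m}) => ENNReal.ofReal (w m))]
    have h1 : ∀ m : ℕ, ∑' _ : {s // s ∈ S m}, ENNReal.ofReal (w m) ≤
        ENNReal.ofReal (1 / ((m : ℝ) + 1) ^ 2) := by
      intro m
      rw [tsum_fintype, Finset.sum_const, Finset.card_univ, Fintype.card_coe, nsmul_eq_mul]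
      rw [← ENNReal.ofReal_natCast, ← ENNReal.ofReal_mul (by positivity)]
      apply ENNReal.ofReal_le_ofReal
      have h2 : ((S m).card : ℝ) ≤ N m := by exact_mod_cast hScard m
      have h3 : (0 : ℝ) < N m := by exact_mod_cast hN0 m
      calc ((S m).card : ℝ) * w m ≤ N m * w m := by
            have := (hw0 m).le
            gcongr
        _ = 1 / ((m : ℝ) + 1) ^ 2 := by
            rw [hw]; field_simp
    refine lt_of_le_of_lt (ENNReal.tsum_le_tsum h1) ?_
    have h4 : Summable fun m : ℕ => 1 / ((m : ℝ) + 1) ^ 2 := by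
      have := (summable_nat_add_iff 1).2 (Real.summable_one_div_nat_pow.2 one_lt_two)
      simpa using this
    exact h4.tsum_ofReal_lt_top
  have hatom : ∀ m, ∀ s ∈ S m, ENNReal.ofReal (w m) ≤ μ {s} := by
    intro m s hs
    rw [hμ, Measure.sum_apply _ (measurableSet_singleton s)]
    refine le_trans ?_ (ENNReal.le_tsum (⟨m, ⟨s, hs⟩⟩ : (m : ℕ) × {s // s ∈ S m}))
    simp
  refine ⟨μ, hfin, ?_, ⟨(m : ℕ) × {s // s ∈ S m}, inferInstance, fun i => i.2,
    fun i => ENNReal.ofReal (w i.1), fun i => hSK _ _ i.2.2,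
    fun i => ENNReal.ofReal_pos.2 (hw0 _), rfl⟩, ?_⟩
  · rw [hμ, Measure.sum_apply _ hK.measurableSet.compl]
    refine ENNReal.tsum_eq_zero.2 fun i => ?_
    rw [Measure.smul_apply, Measure.dirac_apply' _ hK.measurableSet.compl,
      Set.indicator_of_notMem (by simpa using hSK _ _ i.2.2)]
    simp
  · set A : ℕ → ℝ := fun m => c * m * ((1 + 1 / (m : ℝ)) ^ α - 1) with hA
    have hA0 : ∀ m, 1 ≤ m → 0 ≤ A m := by
      intro m hm
      have h1 : (1 : ℝ) ≤ (1 + 1 / (m : ℝ)) ^ α := by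
        apply Real.one_le_rpow _ hα.le
        have : 0 ≤ 1 / (m : ℝ) := by positivity
        linarith
      have : 0 ≤ (1 + 1 / (m : ℝ)) ^ α - 1 := by linarith
      positivity
    refine ⟨fun n => Real.exp (A (n - 1)) / w (n - 1), fun n => by
      have := hw0 (n - 1); positivity, ?_, ?_⟩
    · -- the growth of the constants
      have hlog : ∀ n : ℕ, 2 ≤ n → 0 ≤ Real.log (Real.exp (A (n - 1)) / w (n - 1)) / n ∧
          Real.log (Real.exp (A (n - 1)) / w (n - 1)) / n ≤
          (c : ℝ) * ((1 + 1 / ((n - 1 : ℕ) : ℝ)) ^ α - 1) +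
            (d * Real.log (2 * (R * c ^ k * (d + 1)) + 1 : ℝ)) / n +
            (2 + d * (k + 1)) * (Real.log n / n) := by
        intro n hn
        obtain ⟨m, rfl⟩ : ∃ m, n = m + 1 := ⟨n - 1, by omega⟩
        have hm : 1 ≤ m := by omega
        rw [Nat.add_sub_cancel]
        have hmr : (1 : ℝ) ≤ m := by exact_mod_cast hm
        have hNr : (1 : ℝ) ≤ N m := by exact_mod_cast hN0 m
        have e1 : Real.log (Real.exp (A m) / w m) =
            A m + (2 * Real.log ((m : ℝ) + 1) + Real.log (N m)) := by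
          rw [Real.log_div (Real.exp_ne_zero _) (hw0 m).ne', Real.log_exp, hw]
          simp only
          rw [one_div, Real.log_inv, Real.log_mul (by positivity) (by positivity), Real.log_pow]
          push_cast
          ring
        have e2 : 0 ≤ Real.log ((m : ℝ) + 1) := Real.log_nonneg (by linarith)
        have e3 : 0 ≤ Real.log (N m) := Real.log_nonneg hNr
        have hA0m := hA0 m hm
        refine ⟨?_, ?_⟩
        · rw [e1]; positivity
        · rw [e1]
          have e4 : Real.log (N m) ≤ d * (Real.log (2 * (R * c ^ k * (d + 1)) + 1 : ℝ) +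
              (k + 1) * Real.log ((m : ℝ) + 1)) := by
            rw [hN]
            simp only
            push_cast
            rw [Real.log_pow]
            gcongr
            have e5 : (2 * (R * (q m : ℝ) * (d + 1)) + 1 : ℝ) ≤
                (2 * (R * c ^ k * (d + 1)) + 1) * ((m : ℝ) + 1) ^ (k + 1) := by
              have e6 : (q m : ℝ) ≤ c ^ k * ((m : ℝ) + 1) ^ (k + 1) := by
                rw [hq]
                push_cast
                rw [mul_pow, pow_succ ((m : ℝ) + 1) k, mul_assoc]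
                gcongr
                linarith
              have e7 : (1 : ℝ) ≤ ((m : ℝ) + 1) ^ (k + 1) := one_le_pow₀ (by linarith)
              calc (2 * (R * (q m : ℝ) * (d + 1)) + 1 : ℝ)
                  ≤ 2 * (R * (c ^ k * ((m : ℝ) + 1) ^ (k + 1)) * (d + 1)) +
                    ((m : ℝ) + 1) ^ (k + 1) := by gcongr
                _ = _ := by ring
            calc Real.log (2 * (R * (q m : ℝ) * (d + 1)) + 1)
                ≤ Real.log ((2 * (R * c ^ k * (d + 1)) + 1) * ((m : ℝ) + 1) ^ (k + 1)) :=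
                  Real.log_le_log (by positivity) e5
              _ = _ := by
                  rw [Real.log_mul (by positivity) (by positivity), Real.log_pow]
                  push_cast
                  ring
          have e8 : A m / ((m : ℝ) + 1) ≤ c * ((1 + 1 / (m : ℝ)) ^ α - 1) := by
            rw [div_le_iff₀ (by positivity)]
            have h9 : 0 ≤ c * ((1 + 1 / (m : ℝ)) ^ α - 1) := by
              have h1 : (1 : ℝ) ≤ (1 + 1 / (m : ℝ)) ^ α := by
                apply Real.one_le_rpow _ hα.le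
                have : 0 ≤ 1 / (m : ℝ) := by positivity
                linarith
              have : 0 ≤ (1 + 1 / (m : ℝ)) ^ α - 1 := by linarith
              positivity
            have : A m = c * ((1 + 1 / (m : ℝ)) ^ α - 1) * m := by rw [hA]; ring
            rw [this]
            nlinarith
          push_cast
          have hm1 : (0 : ℝ) < (m : ℝ) + 1 := by positivity
          calc (A m + (2 * Real.log ((m : ℝ) + 1) + Real.log (N m))) / ((m : ℝ) + 1)
              ≤ (A m + (2 * Real.log ((m : ℝ) + 1) +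
                d * (Real.log (2 * (R * c ^ k * (d + 1)) + 1 : ℝ) +
                  (k + 1) * Real.log ((m : ℝ) + 1)))) / ((m : ℝ) + 1) := by gcongr
            _ = A m / ((m : ℝ) + 1) +
                (d * Real.log (2 * (R * c ^ k * (d + 1)) + 1 : ℝ)) / ((m : ℝ) + 1) +
                (2 + d * (k + 1)) * (Real.log ((m : ℝ) + 1) / ((m : ℝ) + 1)) := by
                field_simp
                ring
            _ ≤ _ := by gcongr
      have hlim : Tendsto (fun n : ℕ => Real.log (Real.exp (A (n - 1)) / w (n - 1)) / n) atTop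
          (𝓝 0) := by
        refine tendsto_of_tendsto_of_tendsto_of_le_of_le' tendsto_const_nhds
          (tendsto_bound α c (d * Real.log (2 * (R * c ^ k * (d + 1)) + 1 : ℝ))
            (2 + d * (k + 1))) ?_ ?_
        · filter_upwards [eventually_ge_atTop 2] with n hn using (hlog n hn).1
        · filter_upwards [eventually_ge_atTop 2] with n hn using (hlog n hn).2
      have hexp := (Real.continuous_exp.tendsto 0).comp hlim
      rw [Real.exp_zero] at hexp
      refine hexp.congr fun n => ?_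
      have hpos : 0 < Real.exp (A (n - 1)) / w (n - 1) := by
        have := hw0 (n - 1); positivity
      rw [Function.comp_apply, Real.rpow_def_of_pos hpos]
      congr 1
      ring
    · intro n hn x hx y hy
      obtain ⟨m, hm⟩ : ∃ m, n - 1 = m := ⟨_, rfl⟩
      have hm1 : 1 ≤ m := by omega
      beta_reduce
      clear_value A
      subst hm
      -- a point with a large value and points not too close
      obtain ⟨y₁, hy₁K, hy₁ne, hy₁s, hy₁⟩ : ∃ y₁ ∈ K, (∀ j, x j ≠ y₁) ∧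
          ∑ j, ‖y₁ - x j‖ ^ (-α) ≤ c * ((n - 1 : ℕ) : ℝ) ∧ pf α x y ≤ pf α x y₁ := by
        by_cases h : (∀ j, x j ≠ y) ∧ ∑ j, ‖y - x j‖ ^ (-α) ≤ c * ((n - 1 : ℕ) : ℝ)
        · exact ⟨y, hy, h.1, h.2, le_rfl⟩
        · obtain ⟨y₀, h0K, h0ne, h0s⟩ := hgood (n - 1) x
          refine ⟨y₀, h0K, h0ne, h0s, ?_⟩
          by_cases h2 : ∃ j, x j = y
          · have : pf α x y = 0 := by rw [pf, if_pos h2]
            rw [this]; exact pf_nonneg x y₀
          · have h3 : ∀ j, x j ≠ y := fun j hj => h2 ⟨j, hj⟩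
            have h4 : c * ((n - 1 : ℕ) : ℝ) < ∑ j, ‖y - x j‖ ^ (-α) := by
              by_contra h5
              exact h ⟨h3, not_lt.1 h5⟩
            have h6 : ¬ ∃ j, x j = y₀ := fun ⟨j, hj⟩ => h0ne j hj
            rw [pf, if_neg h2, pf, if_neg h6]
            apply Real.exp_le_exp.2
            linarith
      obtain ⟨z, hzS, hz⟩ := hSnet (n - 1) hm1 y₁ hy₁K
      obtain ⟨hzne, hzs⟩ := exponent_change hα hc hm1 hk x hy₁ne hy₁s hz
      have h1 : ¬ ∃ j, x j = z := fun ⟨j, hj⟩ => hzne j hj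
      have h2 : ¬ ∃ j, x j = y₁ := fun ⟨j, hj⟩ => hy₁ne j hj
      have h3 : pf α x y₁ ≤ Real.exp (A (n - 1)) * pf α x z := by
        rw [pf, if_neg h2, pf, if_neg h1, ← Real.exp_add]
        apply Real.exp_le_exp.2
        rw [hA]
        simp only
        linarith
      have h4 := atom_le (α := α) x μ (hw0 (n - 1)).le (hatom (n - 1) z hzS)
      have hwp := hw0 (n - 1)
      calc pf α x y ≤ Real.exp (A (n - 1)) * pf α x z := hy₁.trans h3
        _ = Real.exp (A (n - 1)) / w (n - 1) * (w (n - 1) * pf α x z) := by field_simp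
        _ ≤ Real.exp (A (n - 1)) / w (n - 1) * ∫ z, pf α x z ∂μ := by gcongr

end Pool.Agent.Results.MP_a7495c_an.DiscreteRBM
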